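import Pool.Agent.Q148.Tree.Def

/-!
# MP_079cdc: an absolutely homogeneous complete, connected, locally connected metric space
which is not locally compact

The example is the complete real tree in which every point has exactly three directions.
-/

open Filter Topology
open Pool.Agent.Q148.Tree

namespace Pool.Agent.Results.MP_079cdc_gt.Tree

/-- Every isometry between subsets of `X` extends to an isometry of `X` onto itself. -/
def AbsolutelyHomogeneous (X : Type*) [MetricSpace X] : Prop :=
  ∀ (A B : Set X) (f : A ≃ B), (∀ a a' : A, dist (f a : X) (f a' : X) = dist (a : X) (a' : X)) →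
    ∃ g : X ≃ᵢ X, ∀ a : A, g a = f a

/-- One-point extension of partial isometries. -/
theorem extend {ι : Type*} (a b : ι → Pt) (h : ∀ i j, dist (a i) (a j) = dist (b i) (b j))
    (x : Pt) : ∃ y, ∀ i, dist y (b i) = dist x (a i) := by
  by_cases hne : Nonempty ι
  swap
  · exact ⟨x, fun i => absurd ⟨i⟩ hne⟩
  -- the distance to the hull
  have hbdd : BddBelow (Set.range (fun p : ι × ι => gp x (a p.1) (a p.2))) := by
    refine ⟨0, ?_⟩
    rintro _ ⟨p, rfl⟩
    exact gp_nonneg _ _ _
  let r0 : ℝ := sInf (Set.range (fun p : ι × ι => gp x (a p.1) (a p.2)))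
  have hr0 : 0 ≤ r0 := le_csInf (Set.range_nonempty _) (by
    rintro _ ⟨p, rfl⟩
    exact gp_nonneg _ _ _)
  have hle : ∀ i j, r0 ≤ gp x (a i) (a j) := fun i j => csInf_le hbdd ⟨(i, j), rfl⟩
  let r : ι → ℝ := fun i => dist x (a i) - r0
  have hself : ∀ i, gp x (a i) (a i) = dist x (a i) := by
    intro i
    unfold gp
    rw [dist_self]
    ring
  have hrnn : ∀ i, 0 ≤ r i := by
    intro i
    have := hle i i
    rw [hself] at this
    show 0 ≤ dist x (a i) - r0
    linarith
  have hrr : ∀ i j, dist (b i) (b j) ≤ r i + r j := by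
    intro i j
    have h1 := hle i j
    unfold gp at h1
    rw [← h]
    show dist (a i) (a j) ≤ (dist x (a i) - r0) + (dist x (a j) - r0)
    linarith
  obtain ⟨q, hq⟩ := hyperconvex b r hrr
  -- equality
  have hqe : ∀ i, dist q (b i) = r i := by
    intro i
    apply le_antisymm (hq i)
    by_contra hlt
    rw [not_le] at hlt
    obtain ⟨_, ⟨⟨j, k⟩, rfl⟩, hjk⟩ := exists_lt_of_csInf_lt (Set.range_nonempty _)
      (show sInf (Set.range (fun p : ι × ι => gp x (a p.1) (a p.2))) <
        r0 + (r i - dist q (b i)) / 2 by
        show r0 < _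
        linarith)
    have h1 := (hyp x (a i) (a j) (a k)).trans_lt hjk
    have key : ∀ l, gp x (a i) (a l) < r0 + (r i - dist q (b i)) / 2 → False := by
      intro l hl
      unfold gp at hl
      have h2 := dist_triangle_left (b i) (b l) q
      have h3 := hq l
      have h4 := h i l
      have e1 : r l = dist x (a l) - r0 := rfl
      have e2 : r i = dist x (a i) - r0 := rfl
      linarith
    rcases min_lt_iff.1 h1 with h2 | h2
    · exact key j (by rw [gp_comm]; exact h2)
    · exact key k h2
  rcases hr0.eq_or_lt with h0 | h0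
  · refine ⟨q, fun i => ?_⟩
    rw [hqe i]
    show dist x (a i) - r0 = _
    rw [← h0]; ring
  · -- choose a free direction
    obtain ⟨y, hy1, hy2⟩ := three q r0 h0
    have hfree : ∃ k, ∀ i, gp q (y k) (b i) = 0 := by
      by_contra hcon
      push Not at hcon
      choose i hi using hcon
      have hpos : ∀ k, 0 < gp q (y k) (b (i k)) := fun k =>
        lt_of_le_of_ne (gp_nonneg _ _ _) (hi k).symm
      have hz : ∀ k l, k ≠ l → gp q (b (i k)) (b (i l)) = 0 := by
        intro k l hkl
        by_contra hne'
        have h1 : 0 < gp q (b (i k)) (b (i l)) := lt_of_le_of_ne (gp_nonneg _ _ _) (Ne.symm hne')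
        have h2 := hyp q (b (i k)) (y k) (b (i l))
        have h3 := hyp q (b (i l)) (y k) (y l)
        have h4 : 0 < gp q (y k) (b (i l)) := lt_of_lt_of_le (lt_min (hpos k) h1) h2
        have h5 : 0 < gp q (b (i l)) (y l) := by rw [gp_comm]; exact hpos l
        have h6 : 0 < gp q (y k) (y l) := lt_of_lt_of_le (lt_min h4 h5) h3
        rw [hy2 k l hkl] at h6
        exact lt_irrefl _ h6
      have hrpos : ∀ k, 0 < r (i k) := by
        intro k
        have h1 := hpos k
        rw [gp_comm] at h1
        have h2 := gp_le q (b (i k)) (y k)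
        rw [hqe] at h2
        linarith
      have hxa : ∀ k l, k ≠ l → dist (a (i k)) (a (i l)) = r (i k) + r (i l) := by
        intro k l hkl
        have h1 := hz k l hkl
        unfold gp at h1
        rw [hqe, hqe] at h1
        rw [h]
        linarith
      -- the point `p`
      have hr0' : r0 ≤ dist x (a (i 0)) := by
        have := hrnn (i 0)
        have e : r (i 0) = dist x (a (i 0)) - r0 := rfl
        linarith
      obtain ⟨p, hp1, hp2⟩ := exists_between x (a (i 0)) r0 hr0 hr0'
      have hpl : ∀ l, dist p (a (i l)) = r (i l) := by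
        intro l
        by_cases hl : l = 0
        · subst hl
          exact hp2
        · have h1 := hyp x (a (i 0)) p (a (i l))
          have h2 : gp x p (a (i 0)) = r0 := by
            unfold gp
            rw [hp1, hp2]
            ring
          have h3 : gp x (a (i 0)) (a (i l)) = r0 := by
            unfold gp
            rw [hxa 0 l (Ne.symm hl)]
            show (dist x (a (i 0)) + dist x (a (i l)) - ((dist x (a (i 0)) - r0) +
              (dist x (a (i l)) - r0))) / 2 = r0
            ring
          rw [h2, h3, min_self] at h1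
          have h4 := gp_le x p (a (i l))
          rw [hp1] at h4
          have h5 := le_antisymm h4 h1
          unfold gp at h5
          rw [hp1] at h5
          show dist p (a (i l)) = dist x (a (i l)) - r0
          linarith
      obtain ⟨k, l, hkl, hgp⟩ := no_four p ![x, a (i 0), a (i 1), a (i 2)] (by
        intro k
        have hd : ∀ l, a (i l) ≠ p := by
          intro l hl
          have := hpl l
          rw [hl, dist_self] at this
          linarith [hrpos l]
        fin_cases k
        · show x ≠ p
          intro hxp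
          rw [hxp, dist_self] at hp1
          linarith
        · exact hd 0
        · exact hd 1
        · exact hd 2)
      have gx : ∀ l, gp p x (a (i l)) = 0 := by
        intro l
        unfold gp
        rw [dist_comm p x, hp1, hpl]
        have e : r (i l) = dist x (a (i l)) - r0 := rfl
        rw [e]
        ring
      have gx' : ∀ l, gp p (a (i l)) x = 0 := fun l => by rw [gp_comm]; exact gx l
      have ga : ∀ k l, k ≠ l → gp p (a (i k)) (a (i l)) = 0 := by
        intro k l hkl
        unfold gp
        rw [hpl, hpl, hxa k l hkl]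
        ring
      have : gp p (![x, a (i 0), a (i 1), a (i 2)] k) (![x, a (i 0), a (i 1), a (i 2)] l) = 0 := by
        fin_cases k <;> fin_cases l
        · exact absurd rfl hkl
        · exact gx 0
        · exact gx 1
        · exact gx 2
        · exact gx' 0
        · exact absurd rfl hkl
        · exact ga 0 1 (by decide)
        · exact ga 0 2 (by decide)
        · exact gx' 1
        · exact ga 1 0 (by decide)
        · exact absurd rfl hkl
        · exact ga 1 2 (by decide)
        · exact gx' 2
        · exact ga 2 0 (by decide)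
        · exact ga 2 1 (by decide)
        · exact absurd rfl hkl
      rw [this] at hgp
      exact lt_irrefl _ hgp
    obtain ⟨k, hk⟩ := hfree
    refine ⟨y k, fun i => ?_⟩
    have h1 := hk i
    unfold gp at h1
    rw [hy1, hqe] at h1
    have e : r i = dist x (a i) - r0 := rfl
    linarith

/-- A partial isometry, as a set of pairs. -/
def PartialIso (R : Set (Pt × Pt)) : Prop :=
  ∀ p ∈ R, ∀ q ∈ R, dist p.1 q.1 = dist p.2 q.2

theorem exists_right {R : Set (Pt × Pt)} (hR : PartialIso R) (x : Pt) :
    ∃ y, PartialIso (insert (x, y) R) := by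
  obtain ⟨y, hy⟩ := extend (fun p : R => p.1.1) (fun p : R => p.1.2)
    (fun p q => hR p.1 p.2 q.1 q.2) x
  refine ⟨y, ?_⟩
  rintro p (rfl | hp) q (rfl | hq)
  · simp
  · exact (hy ⟨q, hq⟩).symm
  · have := hy ⟨p, hp⟩
    rw [dist_comm p.1, dist_comm p.2]
    exact this.symm
  · exact hR p hp q hq

theorem exists_left {R : Set (Pt × Pt)} (hR : PartialIso R) (y : Pt) :
    ∃ x, PartialIso (insert (x, y) R) := by
  obtain ⟨x, hx⟩ := extend (fun p : R => p.1.2) (fun p : R => p.1.1)
    (fun p q => (hR p.1 p.2 q.1 q.2).symm) y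
  refine ⟨x, ?_⟩
  rintro p (rfl | hp) q (rfl | hq)
  · simp
  · exact hx ⟨q, hq⟩
  · have := hx ⟨p, hp⟩
    rw [dist_comm p.1, dist_comm p.2]
    exact this
  · exact hR p hp q hq

theorem absolutelyHomogeneous : AbsolutelyHomogeneous Pt := by
  intro A B f hf
  let R0 : Set (Pt × Pt) := Set.range (fun a : A => ((a : Pt), (f a : Pt)))
  have hR0 : PartialIso R0 := by
    rintro _ ⟨a, rfl⟩ _ ⟨a', rfl⟩
    exact (hf a a').symm
  obtain ⟨R, hR0R, hR⟩ := zorn_subset_nonempty {R | PartialIso R} (by
    intro c hc hchain hcne
    refine ⟨⋃₀ c, ?_, fun s hs => Set.subset_sUnion_of_mem hs⟩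
    rintro p ⟨s, hs, hp⟩ q ⟨t, ht, hq⟩
    rcases hchain.total hs ht with h | h
    · exact hc ht p (h hp) q hq
    · exact hc hs p hp q (h hq)) R0 hR0
  have hiso : PartialIso R := hR.prop
  have htot : ∀ x, ∃ y, (x, y) ∈ R := by
    intro x
    obtain ⟨y, hy⟩ := exists_right hiso x
    have := hR.eq_of_subset hy (Set.subset_insert _ _)
    exact ⟨y, by rw [this]; exact Set.mem_insert _ _⟩
  have hsurj : ∀ y, ∃ x, (x, y) ∈ R := by
    intro y
    obtain ⟨x, hx⟩ := exists_left hiso y
    have := hR.eq_of_subset hx (Set.subset_insert _ _)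
    exact ⟨x, by rw [this]; exact Set.mem_insert _ _⟩
  choose g hg using htot
  choose k hk using hsurj
  have hfun : ∀ x y y', (x, y) ∈ R → (x, y') ∈ R → y = y' := by
    intro x y y' h h'
    have := hiso _ h _ h'
    simp only [dist_self] at this
    exact dist_eq_zero.1 this.symm
  have hinj : ∀ x x' y, (x, y) ∈ R → (x', y) ∈ R → x = x' := by
    intro x x' y h h'
    have := hiso _ h _ h'
    simp only [dist_self] at this
    exact dist_eq_zero.1 this
  let e : Pt ≃ᵢ Pt :=
    { toFun := g
      invFun := k
      left_inv := fun x => hinj _ _ _ (hk (g x)) (hg x)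
      right_inv := fun y => hfun _ _ _ (hg (k y)) (hk y)
      isometry_toFun := Isometry.of_dist_eq (fun x x' => (hiso _ (hg x) _ (hg x')).symm) }
  refine ⟨e, fun a => ?_⟩
  exact hfun _ _ _ (hg a) (hR0R ⟨a, rfl⟩)

/-- Balls are connected. -/
theorem isPreconnected_ball (x : Pt) (R : ℝ) : IsPreconnected (Metric.ball x R) := by
  apply isPreconnected_of_forall x
  intro y hy
  rw [Metric.mem_ball, dist_comm] at hy
  have hm1 := m_le_left x y
  have hm2 := m_le_right x y
  have hd := dist_def x y
  let S : Pt → Set Pt := fun z => (fun s => res z s) '' Set.Icc (m x y) z.ht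
  have hS : ∀ z, IsPreconnected (S z) := by
    intro z
    apply isPreconnected_Icc.image
    rw [Metric.continuousOn_iff]
    intro s hs ε hε
    refine ⟨ε, hε, fun t ht hts => ?_⟩
    rw [dist_res_res _ _ _ ht.2 hs.2, ← Real.dist_eq]
    exact hts
  have hmeet : res x (m x y) = res y (m x y) := by
    apply eq_of_m
    · rw [m_res _ _ _ hm1, res_ht, m_comm x (res y (m x y)), m_res y x _ hm2, m_comm y x,
        min_self, min_self]
    · rw [m_res _ _ _ hm1, res_ht, m_comm x (res y (m x y)), m_res y x _ hm2, m_comm y x,
        min_self, min_self]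
  have hres : ∀ z : Pt, res z z.ht = z := by
    intro z
    apply eq_of_m
    · rw [m_res_self _ _ le_rfl, res_ht]
    · exact m_res_self _ _ le_rfl
  refine ⟨S x ∪ S y, ?_, ?_, ?_, ?_⟩
  · rintro _ (⟨s, hs, rfl⟩ | ⟨s, hs, rfl⟩)
    · rw [Metric.mem_ball]
      show dist (res x s) x < R
      rw [dist_res_self _ _ hs.2]
      linarith [hs.1]
    · rw [Metric.mem_ball]
      show dist (res y s) x < R
      rw [dist_res _ _ _ hs.2, m_comm y x, min_eq_right hs.1]
      linarith [hs.2]
  · left
    exact ⟨x.ht, ⟨hm1, le_rfl⟩, hres x⟩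
  · right
    exact ⟨y.ht, ⟨hm2, le_rfl⟩, hres y⟩
  · apply IsPreconnected.union (res x (m x y))
    · exact ⟨m x y, ⟨le_rfl, hm1⟩, rfl⟩
    · rw [hmeet]
      exact ⟨m x y, ⟨le_rfl, hm2⟩, rfl⟩
    · exact hS x
    · exact hS y

instance : Nonempty Pt :=
  ⟨⟨0, fun _ => false, ⟨0, fun _ _ => rfl⟩, fun _ _ => rfl, fun _ => ⟨1, one_pos, fun _ _ _ => rfl⟩⟩⟩

theorem connected : ConnectedSpace Pt := by
  obtain ⟨x⟩ : Nonempty Pt := inferInstance
  have : PreconnectedSpace Pt := by
    constructor
    apply isPreconnected_of_forall x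
    intro y _
    refine ⟨Metric.ball x (dist y x + 1), Set.subset_univ _, ?_, ?_, isPreconnected_ball _ _⟩
    · rw [Metric.mem_ball, dist_self]
      have := dist_nonneg (x := y) (y := x)
      linarith
    · rw [Metric.mem_ball]
      linarith
  exact { toNonempty := ⟨x⟩ }

theorem locallyConnected : LocallyConnectedSpace Pt :=
  locallyConnectedSpace_of_connected_bases _ _ (fun _ => Metric.nhds_basis_ball)
    (fun x ε _ => isPreconnected_ball x ε)

/-- No neighbourhood is compact. -/
theorem not_compact (x : Pt) (K : Set Pt) (hK : K ∈ 𝓝 x) : ¬ IsCompact K := by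
  intro hc
  obtain ⟨ε, hε, hsub⟩ := Metric.mem_nhds_iff.1 hK
  let r := ε / 3
  have hr : 0 < r := by positivity
  let s : ℕ → ℝ := fun n => x.ht - r / (n + 2)
  have hs : ∀ n, s n < x.ht := by
    intro n
    have : 0 < r / ((n : ℝ) + 2) := by positivity
    show x.ht - r / (n + 2) < x.ht
    linarith
  have hs' : ∀ n, x.ht - r < s n := by
    intro n
    have h1 : r / ((n : ℝ) + 2) < r := by
      rw [div_lt_iff₀ (by positivity)]
      have : (0 : ℝ) ≤ n := Nat.cast_nonneg n
      nlinarith
    show x.ht - r < x.ht - r / (n + 2)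
    linarith
  have hmono : ∀ i j, i < j → s i < s j := by
    intro i j hij
    have : r / ((j : ℝ) + 2) < r / ((i : ℝ) + 2) := by
      apply div_lt_div_of_pos_left hr (by positivity)
      have : (i : ℝ) < j := by exact_mod_cast hij
      linarith
    show x.ht - r / (i + 2) < x.ht - r / (j + 2)
    linarith
  let z : ℕ → Pt := fun n => ap x (s n) r hr.le (!x.f (s n))
  have hzm : ∀ n, m (z n) x = s n := by
    intro n
    apply le_antisymm
    · by_contra hlt
      rw [not_le] at hlt
      have h1 := m_eq (z n) x hlt
      have h2 : (z n).f (s n) = !x.f (s n) := ap_f' _ _ _ _ _ le_rfl (by linarith)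
      rw [h2] at h1
      cases hx : x.f (s n) <;> rw [hx] at h1 <;> exact absurd h1 (by decide)
    · exact le_m_ap x (s n) r hr.le _ (hs n).le
  have hzK : ∀ n, z n ∈ K := by
    intro n
    apply hsub
    rw [Metric.mem_ball, dist_def, hzm]
    have h1 : (z n).ht = s n + r := rfl
    have h2 := hs' n
    have h3 : ε = 3 * r := by show ε = 3 * (ε / 3); ring
    rw [h1]
    linarith
  have hsep : ∀ i j, i < j → r < dist (z i) (z j) := by
    intro i j hij
    have h1 : m (z i) (z j) ≤ s i := by
      by_contra hlt
      rw [not_le] at hlt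
      have h2 := m_ultra (z i) (z j) x
      rw [hzm, hzm, min_le_iff] at h2
      rcases h2 with h2 | h2
      · exact absurd hlt (not_lt.2 h2)
      · exact absurd (hmono i j hij) (not_lt.2 h2)
    rw [dist_def]
    have h3 : (z i).ht = s i + r := rfl
    have h4 : (z j).ht = s j + r := rfl
    have h5 := hmono i j hij
    rw [h3, h4]
    linarith
  obtain ⟨a, -, φ, hφ, hlim⟩ := hc.tendsto_subseq hzK
  have hcau := hlim.cauchySeq
  obtain ⟨N, hN⟩ := Metric.cauchySeq_iff.1 hcau r hr
  have h1 := hN N le_rfl (N + 1) (Nat.le_succ N)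
  have h2 := hsep (φ N) (φ (N + 1)) (hφ (Nat.lt_succ_self N))
  exact absurd h1 (not_lt.2 h2.le)

/-- There is a complete metric space which is absolutely homogeneous, connected and locally
connected, and in which no point has a compact neighbourhood; in particular it is not locally
compact. -/
theorem result : ∃ (X : Type) (_ : MetricSpace X), CompleteSpace X ∧ AbsolutelyHomogeneous X ∧
    ConnectedSpace X ∧ LocallyConnectedSpace X ∧ ¬ LocallyCompactSpace X ∧
    ∀ (x : X) (K : Set X), K ∈ 𝓝 x → ¬ IsCompact K := by
  refine ⟨Pt, inferInstance, inferInstance, absolutelyHomogeneous, connected, locallyConnected,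
    ?_, not_compact⟩
  intro h
  obtain ⟨x⟩ : Nonempty Pt := inferInstance
  obtain ⟨K, hK, -, hc⟩ := h.local_compact_nhds x Set.univ univ_mem
  exact not_compact x K hK hc

end Pool.Agent.Results.MP_079cdc_gt.Tree
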